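import Mathlib
import Pool.Agent.Lib.MP_d96856_al.NA

namespace Pool.Agent.Results.MP_d96856_al.Criterion

open Pool.Agent.Lib.MP_d96856_al

theorem result (m n : ℕ) (H : Subgroup (Multiplicative (Fin m → ℤ) × FreeGroup (Fin n))) :
    (eStab H).FG ↔
      (∀ t : Multiplicative (Fin m → ℤ), ∃ N : ℕ, 0 < N ∧
        ∃ u ∈ commutator (FreeGroup (Fin n)), (t ^ N, u) ∈ H) ∧
      (eStab (H.map (MonoidHom.snd _ _))).FG ∧
      ∀ z : Multiplicative (Fin m → ℤ) →* FreeGroup (Fin n), (∀ h ∈ H, h.2 = z h.1) → z = 1 :=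
  N.criterion H

end Pool.Agent.Results.MP_d96856_al.Criterion
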