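import Mathlib
import Pool.Agent.Lib.MP_d96856_al.ND

namespace Pool.Agent.Results.MP_d96856_al.FreeCaseEquivalent

open Pool.Agent.Lib.MP_d96856_al.N

theorem result (m n : ℕ) :
    Solvable (gn m n) ↔ Solvable (FreeGroup.of : Fin n → FreeGroup (Fin n)) :=
  ⟨down, up⟩

end Pool.Agent.Results.MP_d96856_al.FreeCaseEquivalent
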