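import Mathlib
import Pool.Agent.Lib.MP_d96856_al.R2Alg

namespace Pool.Agent.Results.MP_d96856_al.RankTwoAlgorithm

open Pool.Agent.Lib.MP_d96856_al Pool.Agent.Lib.MP_d96856_al.R2 Pool.Agent.Lib.MP_5e3ef6_lc

theorem result (m : ℕ) :
    ∃ f : List (List ((Fin m ⊕ Fin 2) × Bool)) →
        Option (List ((Fin m → List ((Fin m ⊕ Fin 2) × Bool)) ×
          (Fin 2 → List ((Fin m ⊕ Fin 2) × Bool)))),
      Computable f ∧ ∀ l,
        (f l = none → ¬ (eStab (Subgroup.closure {g | ∃ w ∈ l, evalW w = g})).FG) ∧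
        ∀ o, f l = some o →
          ∃ Ψ : List (Monoid.End (Multiplicative (Fin m → ℤ) × FreeGroup (Fin 2))),
            List.Forall₂ (fun ψ x => (∀ i, ψ (genG (Sum.inl i)) = evalW (x.1 i)) ∧
              ∀ j, ψ (genG (Sum.inr j)) = evalW (x.2 j)) Ψ o ∧
            Submonoid.closure {ψ | ψ ∈ Ψ} =
              eStab (Subgroup.closure {g | ∃ w ∈ l, evalW w = g}) := by
  have hS : Sig fun z : List (GG m 2) × Option (List (GG m 2 × GG m 2)) =>
      (NoG z.1 ∧ z.2 = none) ∨ ∃ o, YesG z.1 o ∧ z.2 = some o := by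
    obtain ⟨P, p1, p2⟩ := S_NoG (m := m)
    obtain ⟨Q, q1, q2⟩ := S_YesG (m := m)
    have p1' : PR fun z : List (Wd m) × ℕ => P z := p1
    have q1' : PR fun z : (List (Wd m) × List (Wd m × Wd m)) × ℕ => Q z := q1
    refine ⟨fun z : (List (Wd m) × Option (List (Wd m × Wd m))) × ℕ =>
      (z.1.2.bind fun o => some (Q ((z.1.1, o), z.2))).getD (P (z.1.1, z.2)), by fun_prop, ?_⟩
    rintro ⟨l, _ | o⟩
    · refine Iff.trans ?_ (p2 l)
      change (_ ∧ none = none) ∨ (∃ o, _ ∧ none = some o) ↔ _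
      simp; rfl
    · refine Iff.trans ?_ (q2 (l, o))
      change (_ ∧ some _ = none) ∨ (∃ o', _ ∧ some _ = some o') ↔ _
      simp; rfl
  obtain ⟨f, f1, f2⟩ := Sig.unif (p := fun (l : List (GG m 2)) r =>
    (NoG l ∧ r = none) ∨ ∃ o, YesG l o ∧ r = some o) hS fun l =>
      (G_complete l).elim (fun h => ⟨none, Or.inl ⟨h, rfl⟩⟩)
        fun ⟨o, h⟩ => ⟨some o, Or.inr ⟨o, h, rfl⟩⟩
  let c : Wd m × Wd m → (Fin m → Wd m) × (Fin 2 → Wd m) := fun p =>
    (fun i => [(Sum.inl i, true)], ![p.1, p.2])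
  have hc : PR c := by
    refine (PR.const _).prodMk (Primrec.fin_curry.2 (PR_fin (fun j (p : Wd m × Wd m) =>
      (![p.1, p.2] : Fin 2 → Wd m) j) fun j => ?_))
    fin_cases j
    exacts [Primrec.fst, Primrec.snd]
  have hc' : PR fun r : Option (List (Wd m × Wd m)) => r.bind fun o => some (o.map c) := by
    fun_prop
  refine ⟨fun l => (show Option (List (Wd m × Wd m)) from f l).bind fun o => some (o.map c),
    hc'.prim.to_comp.comp f1, fun l => ?_⟩
  have e : Subgroup.closure {g | ∃ w ∈ l, evalW w = g} = HH (l.map evalW) := by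
    simp [HH]
  have h := f2 l
  rw [e]
  beta_reduce
  generalize f l = r at h
  rcases r with _ | r
  · rcases h with ⟨h, -⟩ | ⟨o, -, h⟩
    · exact ⟨fun _ => h.sound, fun _ h => nomatch h⟩
    · exact nomatch h
  · rcases h with ⟨-, h⟩ | ⟨o, h, h'⟩
    · exact nomatch h
    refine ⟨fun h => (nomatch h), fun o' ho => ⟨o.map EE, ?_, h.sound⟩⟩
    obtain rfl : r.map c = o' := Option.some.inj ho
    obtain rfl : r.map (fun p => (evalW p.1, evalW p.2)) = o := Option.some.inj h'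
    rw [List.map_map, List.forall₂_map_left_iff, List.forall₂_map_right_iff, List.forall₂_same]
    intro p _
    refine ⟨fun i => ?_, fun j => ?_⟩
    · simp [EE_apply, c, evalW, genG]
    · fin_cases j <;> simp [EE_apply, c, genG, of0, of1]

end Pool.Agent.Results.MP_d96856_al.RankTwoAlgorithm
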